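import Pool.Agent.Helper12.ET.Spec

set_option autoImplicit false

namespace Pool.Agent.Helper10.ET.LOW

open Pool.Agent.Helper12.ET

/-- the indicator function of `[s, s + N)` -/
noncomputable def ind (N : ℕ) (s y : ℤ) : ℝ := if s ≤ y ∧ y < s + N then 1 else 0

theorem ind_mul (N : ℕ) (s t y : ℤ) :
    ind N s y * ind N t y = if y ∈ Finset.Ico (max s t) (min s t + N) then 1 else 0 := by
  unfold ind
  by_cases h1 : s ≤ y ∧ y < s + N <;> by_cases h2 : t ≤ y ∧ y < t + N
  · rw [if_pos h1, if_pos h2, if_pos (by rw [Finset.mem_Ico]; omega)]; norm_num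
  · rw [if_pos h1, if_neg h2, if_neg (by rw [Finset.mem_Ico]; omega)]; norm_num
  · rw [if_neg h1, if_pos h2, if_neg (by rw [Finset.mem_Ico]; omega)]; norm_num
  · rw [if_neg h1, if_neg h2, if_neg (by rw [Finset.mem_Ico]; omega)]; norm_num

theorem sum_ind_mul (N : ℕ) {M s t : ℤ} (hs : 0 ≤ s) (hs' : s + N ≤ M) (ht' : t + N ≤ M) :
    ∑ y ∈ Finset.Ico (0 : ℤ) M, ind N s y * ind N t y = w N (s - t) := by
  rw [Finset.sum_congr rfl fun y _ => ind_mul N s t y, Finset.sum_ite_mem,
    Finset.inter_eq_right.2 (by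
      intro y hy
      rw [Finset.mem_Ico] at *
      omega), Finset.sum_const, Int.card_Ico, nsmul_eq_mul, mul_one]
  unfold w
  rcases le_total s t with h | h
  · rw [max_eq_right h, min_eq_left h]
    have habs : |((s - t : ℤ) : ℝ)| = (t : ℝ) - s := by
      rw [abs_of_nonpos (by exact_mod_cast sub_nonpos.2 h)]
      push_cast; ring
    rw [habs]
    rcases le_total 0 (s + N - t) with h' | h'
    · have e : (((s + N - t).toNat : ℕ) : ℝ) = ((s + N - t : ℤ) : ℝ) := by
        exact_mod_cast congrArg (fun z : ℤ => (z : ℝ)) (Int.toNat_of_nonneg h')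
      have h'' : (0 : ℝ) ≤ ((s + N - t : ℤ) : ℝ) := by exact_mod_cast h'
      rw [e]
      push_cast at h'' ⊢
      rw [max_eq_right (by linarith)]
      ring
    · rw [Int.toNat_of_nonpos h']
      have h'' : ((s + N - t : ℤ) : ℝ) ≤ 0 := by exact_mod_cast h'
      push_cast at h'' ⊢
      rw [max_eq_left (by linarith)]
  · rw [max_eq_left h, min_eq_right h]
    have habs : |((s - t : ℤ) : ℝ)| = (s : ℝ) - t := by
      rw [abs_of_nonneg (by exact_mod_cast sub_nonneg.2 h)]
      push_cast; ring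
    rw [habs]
    rcases le_total 0 (t + N - s) with h' | h'
    · have e : (((t + N - s).toNat : ℕ) : ℝ) = ((t + N - s : ℤ) : ℝ) := by
        exact_mod_cast congrArg (fun z : ℤ => (z : ℝ)) (Int.toNat_of_nonneg h')
      have h'' : (0 : ℝ) ≤ ((t + N - s : ℤ) : ℝ) := by exact_mod_cast h'
      rw [e]
      push_cast at h'' ⊢
      rw [max_eq_right (by linarith)]
      ring
    · rw [Int.toNat_of_nonpos h']
      have h'' : ((t + N - s : ℤ) : ℝ) ≤ 0 := by exact_mod_cast h'
      push_cast at h'' ⊢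
      rw [max_eq_left (by linarith)]

theorem sum_ind (N : ℕ) {M s : ℤ} (hs : 0 ≤ s) (hs' : s + N ≤ M) :
    ∑ y ∈ Finset.Ico (0 : ℤ) M, ind N s y = N := by
  have h := sum_ind_mul N hs hs' hs'
  have e : ∀ y, ind N s y * ind N s y = ind N s y := by
    intro y
    unfold ind
    split_ifs <;> norm_num
  rw [Finset.sum_congr rfl fun y _ => e y] at h
  rw [h]
  simp [w]

theorem main : S_LOW := by
  intro F N k x hk hF hN
  have hx : ∀ u ∈ P F k, 0 ≤ sg u ∧ sg u + N ≤ ((k : ℤ) + 1) * x := by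
    intro u hu
    have hu' : ∀ i, u i ∈ F := by
      intro i
      exact Fintype.mem_piFinset.1 hu i
    constructor
    · exact Finset.sum_nonneg fun i _ => by positivity
    · have h1 : sg u ≤ ∑ _i : Fin k, (x : ℤ) :=
        Finset.sum_le_sum fun i _ => by exact_mod_cast (hF _ (hu' i)).le
      have h2 : (∑ _i : Fin k, (x : ℤ)) = k * x := by simp
      have h3 : (N : ℤ) ≤ x := by exact_mod_cast hN
      rw [h2] at h1
      nlinarith
  set M : ℤ := ((k : ℤ) + 1) * x with hM
  have hM0 : 0 ≤ M := by positivity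
  have s1 : ∑ y ∈ Finset.Ico (0 : ℤ) M, ∑ u ∈ P F k, ind N (sg u) y =
      (N : ℝ) * (F.card : ℝ) ^ k := by
    rw [Finset.sum_comm, Finset.sum_congr rfl fun u hu => sum_ind N (hx u hu).1 (hx u hu).2,
      Finset.sum_const, nsmul_eq_mul]
    have : (P F k).card = F.card ^ k := by
      unfold P
      simp
    rw [this]
    push_cast
    ring
  have s2 : ∑ y ∈ Finset.Ico (0 : ℤ) M, (∑ u ∈ P F k, ind N (sg u) y) ^ 2 = W F N k := by
    have e : ∀ y, (∑ u ∈ P F k, ind N (sg u) y) ^ 2 =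
        ∑ u ∈ P F k, ∑ v ∈ P F k, ind N (sg u) y * ind N (sg v) y := by
      intro y
      rw [sq, Finset.sum_mul_sum]
    rw [Finset.sum_congr rfl fun y _ => e y, Finset.sum_comm]
    unfold W
    refine Finset.sum_congr rfl fun u hu => ?_
    rw [Finset.sum_comm]
    refine Finset.sum_congr rfl fun v hv => ?_
    exact sum_ind_mul N (hx u hu).1 (hx u hu).2 (hx v hv).2
  have cs := sq_sum_le_card_mul_sum_sq (s := Finset.Ico (0 : ℤ) M)
    (f := fun y => ∑ u ∈ P F k, ind N (sg u) y)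
  rw [s1, s2, Int.card_Ico, sub_zero] at cs
  have hc : ((M.toNat : ℕ) : ℝ) = ((k : ℝ) + 1) * x := by
    have : ((M.toNat : ℕ) : ℝ) = ((M : ℤ) : ℝ) := by
      exact_mod_cast congrArg (fun z : ℤ => (z : ℝ)) (Int.toNat_of_nonneg hM0)
    rw [this, hM]
    push_cast
    ring
  rw [hc] at cs
  exact cs

end Pool.Agent.Helper10.ET.LOW
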